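import Pool.Agent.Helper78.LD8.Defs
import Pool.Agent.Helper41.LD7.Defs

/-!
# Project LD10: `x * θ ^ (r n + ρ)` for all rational `r`, `ρ`; definitions: the functionals of LD8, only at the times of one class modulo `Q`
-/

set_option autoImplicit false

namespace Pool.Agent.Helper78.LD10

open Set MeasureTheory
open Pool.Agent.Helper41.LD4 (Pot NBg)
open Pool.Agent.Helper41.LD6 (Qs lev)
open Pool.Agent.Helper78.LD8 (Pm)

/-- the index set -/
def Is (F : Pm) (Q K : ℕ) : Finset (ℕ × (Fin (F.d + 1) → ℕ)) := Finset.range Q ×ˢ Qs F.d K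

/-- the functional `p = (u, q)`: `F.G K ℓst q` at the times `≡ u` modulo `Q`, zero else -/
noncomputable def G (F : Pm) (Q K : ℕ) (ℓst : ℝ) (p : ℕ × (Fin (F.d + 1) → ℕ)) (j : ℕ) (x : ℝ) : ℝ :=
  if (F.n₀ K ℓst + j) % Q = p.1 then F.G K ℓst p.2 j x else 0

/-- the parameter of the potentials (the weights are those of LD7) -/
noncomputable def lam (F : Pm) (Q K : ℕ) (p : ℕ × (Fin (F.d + 1) → ℕ)) : ℝ :=
  1 / (16384 * ((F.X : ℝ) * (F.b K : ℕ))) * Pool.Agent.Helper41.LD7.om Q K (lev p.2)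

/-- a good window of the stage -/
def Good (F : Pm) (Q K : ℕ) (ℓst a ℓ : ℝ) : Prop :=
  NBg (F.U K ℓst) (F.T K ℓst ℓ + F.d) (F.r K) (2 ^ K) a ℓ ∧
  ∑ p ∈ Is F Q K, Pot (G F Q K ℓst p) (F.T K ℓst ℓ) (F.r K) (lam F Q K p) a ℓ ≤ 16 ^ F.e K

/-- the constant of a stage -/
def cF (F : Pm) (Q : ℕ) : ℕ := 2 ^ 30 * (8 * (F.d + 1)) ^ (F.d + 1) * F.Z * Q ^ 2

end Pool.Agent.Helper78.LD10
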