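import Pool.Agent.Helper78.LD10.Asm
import Pool.Agent.Helper78.LD8.Main9
import Pool.Agent.Helper41.LD7.Main
import Pool.Agent.Helper95.KX.Closure
import Pool.Agent.Helper52.LD10.STP
import Pool.Agent.Helper89.LD10.Fin
import Pool.Agent.Helper59.LD10.Cls

/-!
# Project LD10: the multiples `x * θ ^ (r n + ρ)`, all rational `r` and `ρ` at once, the main theorem
-/

set_option autoImplicit false

namespace Pool.Agent.Helper78.LD10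

open Set MeasureTheory Filter Topology
open Pool.Agent.Helper78.LD8 (Pm Uf Tt)
open Pool.Agent.Helper78.LD9 (lw lw_pos lw_zero lw_succ lw_phase lw_anti lw_tendsto lw_le log_phase Tt_phase mass9 nu_ge num_count fam_mono)
open Pool.Agent.Helper41.LD2 (dimH_le_one)
open Pool.Agent.Helper41.LD4 (kp kp_zero kp_strict exists_phase phase_len fam fam_spec le_fam)
open Pool.Agent.Helper41.LD6 (Qs)
open Pool.Agent.Helper41.LD7 (dd exists_rep)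
open Pool.Agent.Helper89.LD (dim_homog)
open Pool.Agent.Helper52.LD10 (stage_step10)
open Pool.Agent.Helper89.LD10 (stage_start10 stage_sums10)
open Pool.Agent.Helper59.LD10 (cls10)
open Pool.Agent.Helper95.KX (SMeas)

/-! ## The resonances -/

theorem ev_NR10 {θ : ℕ → ℝ} (hθ : ∀ i, 1 < θ i) (hm : ∀ i, SMeas (θ i)) (d : ℕ → ℕ) : ∃ a : ℕ → ℕ, Monotone a ∧ (∀ i, 2 ≤ a i) ∧
    ∀ (i X : ℕ) (c : ℕ → ℝ), ∀ᶠ K : ℕ in atTop, Pm.NR ⟨d i, X, a i, θ i, c⟩ K := by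
  have h := fun i => Pool.Agent.Helper78.LD8n.ev_NR (hθ i) (hm i) (d i)
  choose a ha h using h
  have hle : ∀ d, a d ≤ ∑ i ∈ Finset.range (d + 1), a i := fun d =>
    Finset.single_le_sum (f := a) (fun _ _ => Nat.zero_le _) (Finset.mem_range.2 (Nat.lt_succ_self d))
  refine ⟨fun d => ∑ i ∈ Finset.range (d + 1), a i, fun d d' hd => Finset.sum_le_sum_of_subset (Finset.range_mono (by omega)),
    fun d => (ha d).trans (hle d), fun i X c => ?_⟩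
  filter_upwards [h i X c, eventually_ge_atTop 1] with K h1 hK
  intro I hI m hmI hm0 v hv hvI
  refine le_trans ?_ (h1 I hI m hmI hm0 v hv hvI)
  refine mul_le_mul_of_nonneg_right ?_ hv
  exact pow_le_pow_of_le_one (by norm_num) (by norm_num) (Nat.pow_le_pow_right hK (hle i))

/-! ## The tree -/

/-- the number of the digits of the blocks of the phase -/
def bt (Fp : ℕ → Pm) (K₀ : ℕ) (σ : ℕ) : ℕ := (Fp σ).b (K₀ + σ)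

/-- the requirements of all levels -/
structure Rq (Fp : ℕ → Pm) (Qp : ℕ → ℕ) (K₀ : ℕ) (ℓ₀ : ℝ) : Prop where
  ok : ∀ σ, (Fp σ).Ok
  hQ : ∀ σ, 1 ≤ Qp σ
  hQX : ∀ σ, Qp σ ≤ (Fp σ).X
  pos : 0 < ℓ₀
  le : ℓ₀ ≤ 1
  big : ∀ σ, (Fp σ).Big (K₀ + σ)
  big2 : ∀ σ, (Fp σ).Z * (Fp σ).b (K₀ + σ) * (K₀ + σ) ≤ 2 ^ (K₀ + σ)
  nr : ∀ σ, (Fp σ).NR (K₀ + σ)
  cf : ∀ σ, cF (Fp σ) (Qp σ) ≤ K₀ + σ

/-- a good window of level `k` -/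
def GoodM (Fp : ℕ → Pm) (Qp : ℕ → ℕ) (K₀ : ℕ) (ℓ₀ : ℝ) (k : ℕ) (a : ℝ) : Prop :=
  ∀ σ, kp σ < k → k ≤ kp (σ + 1) → Good (Fp σ) (Qp σ) (K₀ + σ) (lw (bt Fp K₀) ℓ₀ (kp σ)) a (lw (bt Fp K₀) ℓ₀ k)

variable {Fp : ℕ → Pm} {Qp : ℕ → ℕ} {K₀ : ℕ} {ℓ₀ : ℝ}

theorem good_at (R : Rq Fp Qp K₀ ℓ₀) {k : ℕ} {a : ℝ} (h : GoodM Fp Qp K₀ ℓ₀ k a) {σ : ℕ} (h1 : kp σ ≤ k) (h2 : k ≤ kp (σ + 1)) :
    Good (Fp σ) (Qp σ) (K₀ + σ) (lw (bt Fp K₀) ℓ₀ (kp σ)) a (lw (bt Fp K₀) ℓ₀ k) := by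
  rcases eq_or_lt_of_le h1 with h3 | h3
  · rw [← h3]
    exact stage_start10 (R.ok σ) (R.big σ) (R.hQX σ) (R.nr σ) (lw_pos R.pos _) a
  · exact h σ h3 h2

theorem lw_le_one (R : Rq Fp Qp K₀ ℓ₀) (k : ℕ) : lw (bt Fp K₀) ℓ₀ k ≤ 1 := by
  have h2 := lw_anti (β := bt Fp K₀) R.pos (Nat.zero_le k)
  rw [lw_zero] at h2
  exact h2.trans R.le

theorem K_pos (R : Rq Fp Qp K₀ ℓ₀) (σ : ℕ) : 1 ≤ K₀ + σ :=
  (by norm_num : 1 ≤ 1000000000000).trans (Pool.Agent.Helper80.LD8.num_K (R.big σ))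

theorem bt_pos (R : Rq Fp Qp K₀ ℓ₀) (σ : ℕ) : 1 ≤ bt Fp K₀ σ := Nat.one_le_pow _ _ (K_pos R σ)

theorem T_le (R : Rq Fp Qp K₀ ℓ₀) {σ k : ℕ} (h1 : kp σ ≤ k) (h2 : k ≤ kp (σ + 1)) :
    (Fp σ).T (K₀ + σ) (lw (bt Fp K₀) ℓ₀ (kp σ)) (lw (bt Fp K₀) ℓ₀ k) ≤ 2 ^ (K₀ + σ) * ((Fp σ).X * (Fp σ).b (K₀ + σ)) := by
  have h3 := Tt_phase (β := bt Fp K₀) (R.ok σ) R.pos (Θ := (Fp σ).Th (K₀ + σ)) (by unfold Pm.Th; positivity) h1 h2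
  have h4 : 2 ^ σ * ((Fp σ).X * bt Fp K₀ σ) ≤ 2 ^ (K₀ + σ) * ((Fp σ).X * (Fp σ).b (K₀ + σ)) :=
    Nat.mul_le_mul_right _ (Nat.pow_le_pow_right (by norm_num) (Nat.le_add_left _ _))
  unfold Pm.T Pm.n₀
  omega

/-- one block -/
theorem good_step (R : Rq Fp Qp K₀ ℓ₀) (k : ℕ) (a : ℝ) (h : GoodM Fp Qp K₀ ℓ₀ k a) :
    (1 / 2 : ℝ) ^ (3 * (Fp (Nat.log 2 (k + 1))).e (K₀ + Nat.log 2 (k + 1))) * ((2 ^ bt Fp K₀ (Nat.log 2 (k + 1)) : ℕ) : ℝ) ≤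
      (by classical exact (((Finset.range (2 ^ bt Fp K₀ (Nat.log 2 (k + 1)))).filter fun b : ℕ =>
        GoodM Fp Qp K₀ ℓ₀ (k + 1) (a + b * lw (bt Fp K₀) ℓ₀ (k + 1))).card : ℝ)) := by
  classical
  obtain ⟨σ, hσ1, hσ2⟩ := exists_phase k
  have hℓk := lw_pos (β := bt Fp K₀) R.pos k
  have h1 := good_at R h hσ1 hσ2.le
  have hT := T_le R (hσ1.trans (Nat.le_succ k)) (Nat.succ_le_of_lt hσ2)
  have e0 : lw (bt Fp K₀) ℓ₀ (k + 1) = lw (bt Fp K₀) ℓ₀ k / 2 ^ (Fp σ).b (K₀ + σ) := lw_phase _ _ hσ1 hσ2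
  rw [show k.succ = k + 1 from rfl, e0] at hT
  have h2 := stage_step10 (R.ok σ) (R.big σ) (R.big2 σ) (R.hQ σ) (R.hQX σ) (R.nr σ) hℓk (lw_anti R.pos hσ1) (lw_le_one R _)
    (num_count (R.ok σ) (R.big σ) (R.big2 σ) hT) h1
  rw [log_phase hσ1 hσ2]
  refine h2.trans ?_
  have h3 : ((Finset.range (2 ^ (Fp σ).b (K₀ + σ))).filter fun b : ℕ =>
      Good (Fp σ) (Qp σ) (K₀ + σ) (lw (bt Fp K₀) ℓ₀ (kp σ)) (a + b * (lw (bt Fp K₀) ℓ₀ k / (2 ^ (Fp σ).b (K₀ + σ) : ℕ)))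
        (lw (bt Fp K₀) ℓ₀ k / (2 ^ (Fp σ).b (K₀ + σ) : ℕ))) ⊆
      ((Finset.range (2 ^ bt Fp K₀ σ)).filter fun b : ℕ => GoodM Fp Qp K₀ ℓ₀ (k + 1) (a + b * lw (bt Fp K₀) ℓ₀ (k + 1))) := by
    intro b hb
    rw [Finset.mem_filter] at hb ⊢
    refine ⟨hb.1, fun σ' e1 e2 => ?_⟩
    have e3 : σ' = σ := by
      rcases lt_trichotomy σ' σ with e | e | e
      · have := kp_strict.monotone (show σ' + 1 ≤ σ by omega)
        omega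
      · exact e
      · have := kp_strict.monotone (show σ + 1 ≤ σ' by omega)
        omega
    subst e3
    have e4 : lw (bt Fp K₀) ℓ₀ (k + 1) = lw (bt Fp K₀) ℓ₀ k / (2 ^ (Fp σ').b (K₀ + σ') : ℕ) := by
      rw [e0]
      push_cast
      rfl
    rw [e4]
    exact hb.2
  have h4 := Finset.card_le_card h3
  convert (Nat.cast_le (α := ℝ)).2 h4 using 2

/-- the discrepancy over one phase -/
theorem sum_box (R : Rq Fp Qp K₀ ℓ₀) {x : ℝ} (hx : ∀ k, ∃ a, GoodM Fp Qp K₀ ℓ₀ k a ∧ x ∈ Icc a (a + lw (bt Fp K₀) ℓ₀ k))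
    {σ k : ℕ} (h1 : kp σ ≤ k) (h2 : k ≤ kp (σ + 1)) {s g : ℕ} (hg : 1 ≤ g) (hgQ : g ∣ Qp σ) {κ : Fin s → ℕ} (hκ : Function.Injective κ)
    (hκd : ∀ i, κ i ≤ (Fp σ).d) (α γ : Fin s → ℝ) (hαγ : ∀ i, 0 ≤ α i ∧ α i ≤ γ i ∧ γ i ≤ 1) :
    |(((Finset.Ico (Tt ((Fp σ).θ ^ g) 1 (lw (bt Fp K₀) ℓ₀ (kp σ))) (Tt ((Fp σ).θ ^ g) 1 (lw (bt Fp K₀) ℓ₀ k))).filter fun n : ℕ =>
        ∀ i : Fin s, α i ≤ Int.fract (Uf (Fp σ).θ (Fp σ).c (g * n + κ i) x) ∧ Int.fract (Uf (Fp σ).θ (Fp σ).c (g * n + κ i) x) < γ i).card : ℝ) -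
      ((Tt ((Fp σ).θ ^ g) 1 (lw (bt Fp K₀) ℓ₀ k) : ℝ) - Tt ((Fp σ).θ ^ g) 1 (lw (bt Fp K₀) ℓ₀ (kp σ))) * ∏ i, (γ i - α i)| ≤
      ((K₀ + σ : ℕ) : ℝ) ^ (2 * (Fp σ).a + 2 * (Fp σ).d + 5) := by
  obtain ⟨a, hg', hxa⟩ := hx k
  have hgood := good_at R hg' h1 h2
  have hT := T_le R h1 h2
  have hc := num_count (R.ok σ) (R.big σ) (R.big2 σ) hT
  have h3 := cls10 (R.ok σ) (R.big σ) (R.hQ σ) (R.hQX σ) (lw_pos (β := bt Fp K₀) R.pos k) (lw_anti (β := bt Fp K₀) R.pos h1) hT hg hgQ hκ hκd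
    (fun u hu => stage_sums10 (R.ok σ) (R.big σ) (R.hQ σ) (R.hQX σ) (R.nr σ) (lw_pos (β := bt Fp K₀) R.pos k) ((Nat.le_add_right _ _).trans hc)
      hgood hxa hu) α γ hαγ
  refine h3.trans ?_
  have h4 : ((cF (Fp σ) (Qp σ) : ℕ) : ℝ) ≤ ((K₀ + σ : ℕ) : ℝ) := by exact_mod_cast R.cf σ
  calc ((cF (Fp σ) (Qp σ) : ℕ) : ℝ) * ((K₀ + σ : ℕ) : ℝ) ^ (2 * (Fp σ).a + 2 * (Fp σ).d + 4) ≤
        ((K₀ + σ : ℕ) : ℝ) * ((K₀ + σ : ℕ) : ℝ) ^ (2 * (Fp σ).a + 2 * (Fp σ).d + 4) := mul_le_mul_of_nonneg_right h4 (by positivity)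
    _ = _ := by ring

/-! ## The families -/

/-- the base of the family `i` -/
noncomputable def rt (θ : ℝ) (i : ℕ) : ℝ := θ ^ (1 / (i.factorial : ℝ))

theorem one_lt_rt {θ : ℝ} (hθ : 1 < θ) (i : ℕ) : 1 < rt θ i :=
  Real.one_lt_rpow hθ (by have := Nat.factorial_pos i; positivity)

theorem rt_pow {θ : ℝ} (hθ : 0 < θ) (i n : ℕ) : rt θ i ^ n = θ ^ ((n : ℝ) / (i.factorial : ℝ)) := by
  unfold rt
  rw [← Real.rpow_natCast, ← Real.rpow_mul hθ.le]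
  congr 1
  ring

theorem rt_smeas {θ : ℝ} (hθ : 0 < θ) (hm : SMeas θ) (i : ℕ) : SMeas (rt θ i) := by
  refine Pool.Agent.Helper95.KX.smeas_root (b := i.factorial) (Nat.factorial_pos i) ?_
  rw [rt_pow hθ, div_self (by have := Nat.factorial_pos i; positivity), Real.rpow_one]
  exact hm

/-- the family `i` -/
noncomputable def Fm (X a : ℕ → ℕ) (θ : ℝ) (c : ℝ → ℝ) (i : ℕ) : Pm := ⟨dd i, X i, a i, rt θ i, fun n => c ((n : ℝ) / (i.factorial : ℝ))⟩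

/-! ## The core -/

/-- `r` and the `ρ j` belong to the family `i` -/
def Rep (i : ℕ) (r : ℚ) {m : ℕ} (ρ : Fin m → ℚ) : Prop :=
  ∃ (g : ℕ) (κ : Fin m → ℕ), 1 ≤ g ∧ g ∣ i.factorial ^ 2 ∧ Function.Injective κ ∧ (∀ j, κ j ≤ dd i) ∧
    (r : ℝ) = g / (i.factorial : ℕ) ∧ ∀ j, (ρ j : ℝ) = κ j / (i.factorial : ℕ)

/-- all the requirements of the family `i` at the level `K` -/
def Al (X a : ℕ → ℕ) (θ : ℝ) (c : ℝ → ℝ) (i K : ℕ) : Prop :=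
  ((Fm X a θ c i).Big K ∧ (Fm X a θ c i).Z * (Fm X a θ c i).b K * K ≤ 2 ^ K) ∧
    (Fm X a θ c i).NR K ∧ cF (Fm X a θ c i) (i.factorial ^ 2) ≤ K ∧ dd i + 4 ≤ K

/-- the exponent of the family `i` -/
def ex (a : ℕ → ℕ) (i : ℕ) : ℕ := 2 * (2 * a i + 2 * dd i + 5) + 6

theorem core10 {θ : ℝ} (hθ : 1 < θ) (c : ℝ → ℝ) {O : Set ℝ} (hO : IsOpen O) (hne : O.Nonempty) {s : ℝ} (hs : 0 < s) (hs1 : s < 1)
    {X a : ℕ → ℕ} (hF : ∀ i, (Fm X a θ c i).Ok) (hX4 : ∀ i, i.factorial ^ 2 ≤ X i) (hamono : Monotone a) {K₀ : ℕ} (hK₀1 : 1 ≤ K₀)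
    {fm : ℕ → ℕ} (hfmm : Monotone fm) (hspec : ∀ σ, Al X a θ c (fm σ) (K₀ + σ)) :
    ENNReal.ofReal s ≤ dimH {ξ | ξ ∈ O ∧ ∀ (r : ℚ) (m : ℕ) (ρ : Fin m → ℚ), 0 < r → (∃ σ₀ : ℕ, ∀ σ ≥ σ₀, Rep (fm σ) r ρ) →
      ∃ N₀ : ℕ, ∀ N ≥ N₀, ∃ σ, K₀ + σ ≤ N ∧
        Pool.Agent.Helper41.LD7.BoxLe m (fun n i => ξ * θ ^ ((r : ℝ) * n + ρ i) + c (r * n + ρ i)) N (Real.log N ^ ex a (fm σ))} := by
  classical
  have hθ0 : 0 < θ := by linarith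
  -- the starting window
  obtain ⟨x₀, hx₀⟩ := hne
  obtain ⟨ρ, hρ, hball⟩ := Metric.isOpen_iff.1 hO x₀ hx₀
  obtain ⟨ℓ₀, hℓ₀⟩ : ∃ ℓ₀ : ℝ, ℓ₀ = min 1 (ρ / 2) := ⟨_, rfl⟩
  have hℓ₀pos : 0 < ℓ₀ := by rw [hℓ₀]; positivity
  have hℓ₀1 : ℓ₀ ≤ 1 := by rw [hℓ₀]; exact min_le_left _ _
  have hℓ₀ρ : ℓ₀ ≤ ρ / 2 := by rw [hℓ₀]; exact min_le_right _ _
  have hsub : Icc x₀ (x₀ + ℓ₀) ⊆ O := by
    intro x hx
    refine hball ?_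
    rw [Metric.mem_ball, Real.dist_eq, abs_of_nonneg (by linarith [hx.1])]
    linarith [hx.2]
  obtain ⟨Fp, hFp⟩ : ∃ Fp : ℕ → Pm, Fp = fun σ => Fm X a θ c (fm σ) := ⟨_, rfl⟩
  obtain ⟨Qp, hQp⟩ : ∃ Qp : ℕ → ℕ, Qp = fun σ => (fm σ).factorial ^ 2 := ⟨_, rfl⟩
  have R : Rq Fp Qp K₀ ℓ₀ := by
    subst hFp hQp
    exact ⟨fun σ => hF _, fun σ => Nat.one_le_pow _ _ (Nat.factorial_pos _), fun σ => hX4 _, hℓ₀pos, hℓ₀1, fun σ => (hspec σ).1.1,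
      fun σ => (hspec σ).1.2, fun σ => (hspec σ).2.1, fun σ => (hspec σ).2.2.1⟩
  have hdim := dim_homog (fun k => 2 ^ bt Fp K₀ (Nat.log 2 (k + 1))) (lw (bt Fp K₀) ℓ₀)
    (fun k => (1 / 2 : ℝ) ^ (3 * (Fp (Nat.log 2 (k + 1))).e (K₀ + Nat.log 2 (k + 1)))) (GoodM Fp Qp K₀ ℓ₀) x₀
    (fun k => Nat.one_le_two_pow) (lw_pos hℓ₀pos 0) (fun k => by rw [lw_succ]; push_cast; rfl) (lw_tendsto hℓ₀pos (bt_pos R))
    (fun k => by positivity) (fun k => pow_le_one₀ (by norm_num) (by norm_num)) (fun σ h _ => absurd h (Nat.not_lt_zero _))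
    (fun k a hg => by
      have := good_step R k a hg
      convert this using 3) hs hs1 (mass9 (K₀ := K₀) (e := fun σ => (Fp σ).e (K₀ + σ)) hℓ₀pos (fun σ => by
        rw [hFp, sq]
        show (dd (fm σ) + 4) * (K₀ + σ) ≤ (K₀ + σ) * (K₀ + σ)
        exact Nat.mul_le_mul_right _ (hspec σ).2.2.2) (fun σ => by
        rw [hFp]
        show (K₀ + σ) ^ 3 ≤ (K₀ + σ) ^ (2 * a (fm σ) + 1)
        exact Nat.pow_le_pow_right (K_pos R σ) (by have : 2 ≤ a (fm σ) := (hF (fm σ)).ha; omega)) hs hs1)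
  refine hdim.trans (dimH_mono ?_)
  rintro x ⟨hx0, hx⟩
  rw [lw_zero] at hx0
  refine ⟨hsub hx0, fun r m ρ hr hrep => ?_⟩
  obtain ⟨σ₀, hσ₀⟩ := hrep
  obtain ⟨Ex, hEx⟩ : ∃ Ex : ℕ → ℕ, Ex = fun σ => 2 * a (fm σ) + 2 * dd (fm σ) + 5 := ⟨_, rfl⟩
  have hExm : Monotone Ex := by
    intro σ σ' h
    rw [hEx]
    have h1 := hfmm h
    have h2 := hamono h1
    have h3 : dd (fm σ) ≤ dd (fm σ') := by
      unfold dd
      exact Nat.mul_le_mul h1 (Nat.factorial_le h1)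
    show 2 * a (fm σ) + 2 * dd (fm σ) + 5 ≤ 2 * a (fm σ') + 2 * dd (fm σ') + 5
    omega
  -- the base `θ ^ r`
  have hη : 1 < θ ^ (r : ℝ) := Real.one_lt_rpow hθ (by exact_mod_cast hr)
  obtain ⟨Y, hY1, hY2, hY3⟩ := Pool.Agent.Helper78.LD8.exists_X hη
  have hG : Pm.Ok ⟨0, Y, 2, θ ^ (r : ℝ), fun _ => 0⟩ := ⟨hY1, le_rfl, hη, hY2, hY3⟩
  obtain ⟨N₀, hN₀⟩ := asm9 (β := {p : (Fin m → ℝ) × (Fin m → ℝ) // ∀ i, 0 ≤ p.1 i ∧ p.1 i ≤ p.2 i ∧ p.2 i ≤ 1})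
    (fun b n => ∀ i : Fin m, b.1.1 i ≤ Int.fract (x * θ ^ ((r : ℝ) * n + ρ i) + c (r * n + ρ i)) ∧
      Int.fract (x * θ ^ ((r : ℝ) * n + ρ i) + c (r * n + ρ i)) < b.1.2 i)
    (fun b => ∏ i, (b.1.2 i - b.1.1 i))
    (fun b => ⟨Finset.prod_nonneg fun i _ => by linarith [(b.2 i).2.1],
      Finset.prod_le_one (fun i _ => by linarith [(b.2 i).2.1]) fun i _ => by linarith [(b.2 i).1, (b.2 i).2.2]⟩)
    (ν := fun k => Tt (θ ^ (r : ℝ)) 1 (lw (bt Fp K₀) ℓ₀ k)) (X := Y) (K₀ := K₀) (Ex := Ex)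
    (fun k k' hk => Pool.Agent.Helper44.LD8.Tt_mono hη (lw_pos hℓ₀pos _) (lw_anti hℓ₀pos hk) zero_le_one) hK₀1 hExm
    (fun k => nu_ge hG hℓ₀pos hℓ₀1 (bt_pos R) k) (max σ₀ Y)
    (fun σ hσ k h1 h2 => by
      have h3 := Pool.Agent.Helper44.LD8.Tt_block_le hG (Θ := 1) (lw_pos (β := bt Fp K₀) hℓ₀pos k) zero_le_one (bt Fp K₀ σ)
      rw [← lw_phase (bt Fp K₀) ℓ₀ h1 h2] at h3
      refine h3.trans (Nat.add_le_add_left ?_ _)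
      have h4 : Y ≤ K₀ + σ := ((le_max_right _ _).trans hσ).trans (Nat.le_add_left _ _)
      rw [hFp]
      show Y * (K₀ + σ) ^ (2 * a (fm σ) + 1) ≤ (K₀ + σ) ^ Ex σ
      calc Y * (K₀ + σ) ^ (2 * a (fm σ) + 1) ≤ (K₀ + σ) * (K₀ + σ) ^ (2 * a (fm σ) + 1) := Nat.mul_le_mul_right _ h4
        _ = (K₀ + σ) ^ (2 * a (fm σ) + 2) := by ring
        _ ≤ (K₀ + σ) ^ Ex σ := Nat.pow_le_pow_right (K_pos R σ) (by rw [hEx]; show _ ≤ 2 * a (fm σ) + 2 * dd (fm σ) + 5; omega)) (by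
      intro σ hσ k h1 h2 b
      obtain ⟨g, κ, hg, hgQ, hκ, hκd, hrg, hρκ⟩ := hσ₀ σ ((le_max_left _ _).trans hσ)
      have h4 := sum_box R hx (s := m) h1 h2 hg (by rw [hQp]; exact hgQ) hκ (fun i => by rw [hFp]; exact hκd i) b.1.1 b.1.2 b.2
      have h8 : Fp σ = Fm X a θ c (fm σ) := by rw [hFp]
      rw [h8] at h4
      have h5 : ∀ (n : ℕ) (i : Fin m), Uf (Fm X a θ c (fm σ)).θ (Fm X a θ c (fm σ)).c (g * n + κ i) x = x * θ ^ ((r : ℝ) * n + ρ i) + c (r * n + ρ i) := by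
        intro n i
        unfold Uf
        show x * rt θ (fm σ) ^ (g * n + κ i) + c (((g * n + κ i : ℕ) : ℝ) / ((fm σ).factorial : ℝ)) = _
        have h6 : ((g * n + κ i : ℕ) : ℝ) / ((fm σ).factorial : ℝ) = r * n + ρ i := by
          rw [hrg, hρκ i]
          push_cast
          ring
        rw [rt_pow hθ0, h6]
      have h7 : (Fm X a θ c (fm σ)).θ ^ g = θ ^ (r : ℝ) := by
        show rt θ (fm σ) ^ g = _
        rw [rt_pow hθ0, hrg]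
      simp only [h5, h7] at h4
      have h9 : Ex σ = 2 * (Fm X a θ c (fm σ)).a + 2 * (Fm X a θ c (fm σ)).d + 5 := by rw [hEx]; rfl
      rw [h9]
      convert h4)
  refine ⟨N₀, fun N hN' => ?_⟩
  obtain ⟨σ, h1, h2⟩ := hN₀ N hN'
  refine ⟨σ, h1, fun α γ hαγ => ?_⟩
  have h3 := h2 ⟨(α, γ), hαγ⟩
  have h5 : 2 * Ex σ + 6 = ex a (fm σ) := by rw [hEx]; rfl
  rw [h5] at h3
  refine le_trans (le_of_eq ?_) h3
  congr!

/-- the dimension is one -/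
theorem dim_one_of {S : Set ℝ} (h : ∀ s : ℝ, 0 < s → s < 1 → ENNReal.ofReal s ≤ dimH S) : dimH S = 1 := by
  refine le_antisymm (dimH_le_one _) ?_
  have h1 : Tendsto (fun m : ℕ => ENNReal.ofReal (1 - 1 / ((m : ℝ) + 2))) atTop (𝓝 1) := by
    have h2 : Tendsto (fun m : ℕ => 1 - 1 / ((m : ℝ) + 2)) atTop (𝓝 (1 - 0)) := by
      refine Tendsto.sub tendsto_const_nhds ?_
      have h3 : Tendsto (fun m : ℕ => (m : ℝ) + 2) atTop atTop :=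
        tendsto_natCast_atTop_atTop.atTop_add tendsto_const_nhds
      have h5 := tendsto_inv_atTop_zero.comp h3
      refine h5.congr fun m => ?_
      rw [Function.comp_apply, one_div]
    rw [sub_zero] at h2
    have h4 := (ENNReal.continuous_ofReal.tendsto 1).comp h2
    rwa [ENNReal.ofReal_one] at h4
  refine le_of_tendsto h1 (Eventually.of_forall fun m => h _ ?_ ?_)
  · have : (1 : ℝ) / ((m : ℝ) + 2) < 1 := by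
      rw [div_lt_one (by positivity)]
      have : (0 : ℝ) ≤ m := Nat.cast_nonneg m
      linarith
    linarith
  · have : (0 : ℝ) < 1 / ((m : ℝ) + 2) := by positivity
    linarith

/-! ## The data -/

/-- the data of the families -/
theorem exists_data {θ : ℝ} (hθ : 1 < θ) (hm : SMeas θ) : ∃ X a : ℕ → ℕ, Monotone a ∧ (∀ i, i.factorial ^ 2 ≤ X i) ∧
    ∀ c : ℝ → ℝ, (∀ i, (Fm X a θ c i).Ok) ∧ ∀ i, ∀ᶠ K : ℕ in atTop, Al X a θ c i K := by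
  have hθ0 : 0 < θ := by linarith
  have hX : ∀ i, ∃ X : ℕ, 1 ≤ X ∧ rt θ i ≤ 2 ^ X ∧ 2 ≤ rt θ i ^ X ∧ i.factorial ^ 2 ≤ X := fun i => by
    obtain ⟨X, h1, h2, h3⟩ := Pool.Agent.Helper78.LD8.exists_X (one_lt_rt hθ i)
    refine ⟨X + i.factorial ^ 2, by omega, h2.trans (pow_le_pow_right₀ (by norm_num) (by omega)),
      h3.trans (pow_le_pow_right₀ (one_lt_rt hθ i).le (by omega)), by omega⟩
  choose X hX1 hX2 hX3 hX4 using hX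
  obtain ⟨a, hamono, ha, hN⟩ := ev_NR10 (one_lt_rt hθ) (rt_smeas hθ0 hm) dd
  exact ⟨X, a, hamono, hX4, fun c => ⟨fun i => ⟨hX1 i, ha i, one_lt_rt hθ i, hX2 i, hX3 i⟩, fun i =>
    (Pool.Agent.Helper80.LD8.num_ev _).and ((hN i (X i) _).and ((eventually_ge_atTop _).and (eventually_ge_atTop _)))⟩⟩

/-! ## The main theorems -/

/-- **nearly optimal joint discrepancy of the multiples, all rational rates and shifts at once** -/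
theorem main10 {θ : ℝ} (hθ : 1 < θ) (hm : SMeas θ) (E : ℕ → ℝ) (hE : ∀ C : ℕ, ∀ᶠ N : ℕ in atTop, Real.log N ^ C ≤ E N) (c : ℝ → ℝ)
    (O : Set ℝ) (hO : IsOpen O) (hne : O.Nonempty) :
    dimH {ξ | ξ ∈ O ∧ ∀ (r : ℚ) (s : ℕ) (ρ : Fin s → ℚ), 0 < r → (∀ i, 0 ≤ ρ i) → Function.Injective ρ →
      ∃ N₀ : ℕ, ∀ N ≥ N₀, Pool.Agent.Helper41.LD7.BoxLe s (fun n i => ξ * θ ^ ((r : ℝ) * n + ρ i) + c (r * n + ρ i)) N (E N)} = 1 := by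
  refine dim_one_of fun s hs hs1 => ?_
  obtain ⟨X, a, hamono, hX4, hdata⟩ := exists_data hθ hm
  obtain ⟨hF, hN⟩ := hdata c
  have hthr : ∀ i, ∃ t : ℕ, ∀ K ≥ t, Al X a θ c i K ∧ Real.log K ^ ex a i ≤ E K := fun i => eventually_atTop.1 ((hN i).and (hE _))
  choose thr hthr using hthr
  obtain ⟨K₀, hK₀⟩ : ∃ K₀, K₀ = max (thr 0) 1 := ⟨_, rfl⟩
  have hK₀1 : 1 ≤ K₀ := by rw [hK₀]; exact le_max_right _ _
  have hK₀0 : thr 0 ≤ K₀ := by rw [hK₀]; exact le_max_left _ _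
  have h1 := core10 hθ c hO hne hs hs1 hF hX4 hamono hK₀1 (fam_mono thr K₀) (fun σ => (hthr _ _ (fam_spec hK₀0 σ)).1)
  refine h1.trans (dimH_mono ?_)
  rintro x ⟨hx0, hx⟩
  refine ⟨hx0, fun r m ρ hr hρ0 hρi => ?_⟩
  obtain ⟨i₀, hi₀⟩ := exists_rep hr hρ0 hρi
  obtain ⟨N₀, hN₀⟩ := hx r m ρ hr ⟨max i₀ (thr i₀), fun σ hσ => hi₀ _ (le_fam ((le_max_left _ _).trans hσ) ((le_max_right _ _).trans hσ))⟩
  refine ⟨N₀, fun N hN' => ?_⟩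
  obtain ⟨σ, h2, h3⟩ := hN₀ N hN'
  have h4 := (hthr (fam thr K₀ σ) N ((fam_spec hK₀0 σ).trans h2)).2
  exact fun α γ hαγ => (h3 α γ hαγ).trans h4

/-- finitely many rational numbers belong to one family -/
theorem exists_fin (S : Finset ℚ) : ∃ i : ℕ, ∀ (r : ℚ) (m : ℕ) (ρ : Fin m → ℚ), r ∈ S → 0 < r → (∀ j, ρ j ∈ S ∧ 0 ≤ ρ j) → Function.Injective ρ →
    Rep i r ρ := by
  refine ⟨∑ q ∈ S, (q.den + q.num.natAbs), fun r m ρ hrS hr hρ hρi => ?_⟩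
  obtain ⟨i, hi⟩ : ∃ i, i = ∑ q ∈ S, (q.den + q.num.natAbs) := ⟨_, rfl⟩
  rw [← hi]
  have h1 : ∀ q ∈ S, q.den + q.num.natAbs ≤ i := fun q hq => by
    rw [hi]
    exact Finset.single_le_sum (f := fun q : ℚ => q.den + q.num.natAbs) (fun _ _ => Nat.zero_le _) hq
  have h0 := h1 r hrS
  have hfac := Nat.factorial_pos i
  have hrep := fun j => Pool.Agent.Helper41.LD7.rat_rep (hρ j).2 (i := i) (by have := h1 _ (hρ j).1; omega)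
  refine ⟨r.num.natAbs * (i.factorial / r.den), fun j => (ρ j).num.natAbs * (i.factorial / (ρ j).den), ?_,
    Pool.Agent.Helper41.LD7.rat_dvd (by omega) (by omega) hr, ?_, ?_,
    (Pool.Agent.Helper41.LD7.rat_rep hr.le (by omega)).symm, fun j => (hrep j).symm⟩
  · have h3 : 0 < r.num.natAbs := Int.natAbs_pos.2 (Rat.num_pos.2 hr).ne'
    have h4 : 0 < i.factorial / r.den := Nat.div_pos (Nat.le_of_dvd hfac (Nat.dvd_factorial r.den_pos (by omega))) r.den_pos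
    exact Nat.mul_pos h3 h4
  · intro j j' hjj
    have h5 : (ρ j : ℝ) = ρ j' := by
      rw [← hrep j, ← hrep j']
      show (((ρ j).num.natAbs * (i.factorial / (ρ j).den) : ℕ) : ℝ) / _ = (((ρ j').num.natAbs * (i.factorial / (ρ j').den) : ℕ) : ℝ) / _
      have h6 : (ρ j).num.natAbs * (i.factorial / (ρ j).den) = (ρ j').num.natAbs * (i.factorial / (ρ j').den) := hjj
      rw [h6]
    exact hρi (by exact_mod_cast h5)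
  · intro j
    unfold dd
    have h7 := h1 _ (hρ j).1
    exact Nat.mul_le_mul (by omega) (Nat.div_le_self _ _)

/-- **a power of the logarithm for finitely many rates and shifts** -/
theorem main10f {θ : ℝ} (hθ : 1 < θ) (hm : SMeas θ) (S : Finset ℚ) : ∃ C : ℕ, ∀ (c : ℝ → ℝ) (O : Set ℝ), IsOpen O → O.Nonempty →
    dimH {ξ | ξ ∈ O ∧ ∀ (r : ℚ) (s : ℕ) (ρ : Fin s → ℚ), r ∈ S → 0 < r → (∀ i, ρ i ∈ S ∧ 0 ≤ ρ i) → Function.Injective ρ →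
      ∃ N₀ : ℕ, ∀ N ≥ N₀, Pool.Agent.Helper41.LD7.BoxLe s (fun n i => ξ * θ ^ ((r : ℝ) * n + ρ i) + c (r * n + ρ i)) N (Real.log N ^ C)} = 1 := by
  obtain ⟨X, a, hamono, hX4, hdata⟩ := exists_data hθ hm
  obtain ⟨i, hi⟩ := exists_fin S
  refine ⟨ex a i, fun c O hO hne => dim_one_of fun s hs hs1 => ?_⟩
  obtain ⟨hF, hN⟩ := hdata c
  obtain ⟨t, ht⟩ := eventually_atTop.1 (hN i)
  have h1 := core10 hθ c hO hne hs hs1 hF hX4 hamono (K₀ := max t 1) (le_max_right _ _) (fm := fun _ => i) monotone_const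
    (fun σ => ht _ ((le_max_left _ _).trans (Nat.le_add_right _ _)))
  refine h1.trans (dimH_mono ?_)
  rintro x ⟨hx0, hx⟩
  refine ⟨hx0, fun r m ρ hrS hr hρ hρi => ?_⟩
  obtain ⟨N₀, hN₀⟩ := hx r m ρ hr ⟨0, fun _ _ => hi r m ρ hrS hr hρ hρi⟩
  refine ⟨N₀, fun N hN' => ?_⟩
  obtain ⟨_, _, h3⟩ := hN₀ N hN'
  exact h3

end Pool.Agent.Helper78.LD10
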